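import Pool.Agent.H86.DB.Targets

/-!
# Leading coefficients
-/

set_option autoImplicit false

open Pool.Agent.H86.DB Filter Topology

namespace Pool.Agent.H74.DB

/-- (LIM) leading coefficients -/
theorem pf_LIM : T_LIM := by
  intro m e d N h
  have h1 : ∀ n : ℕ, e * (n + 1) ^ m ≤ m.factorial * d * (N + (n + 1)) ^ m := by
    intro n
    have h2 : (n + 1) ^ m ≤ (n + 1).ascFactorial m := Nat.pow_succ_le_ascFactorial (n + 1) m
    have h3 : (n + 1).ascFactorial m = m.factorial * (n + m).choose m :=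
      Nat.ascFactorial_eq_factorial_mul_choose n m
    calc e * (n + 1) ^ m ≤ e * (m.factorial * (n + m).choose m) := by
          rw [← h3]
          exact Nat.mul_le_mul_left e h2
      _ = m.factorial * (e * (n + m).choose m) := by ring
      _ ≤ m.factorial * ((N + (n + 1)) ^ m * d) := Nat.mul_le_mul_left _ (h n)
      _ = m.factorial * d * (N + (n + 1)) ^ m := by ring
  have h4 : ∀ n : ℕ, (e : ℝ) ≤ (m.factorial * d : ℝ) * (1 + (N : ℝ) * (1 / ((n : ℝ) + 1))) ^ m := by
    intro n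
    have hn : (0 : ℝ) < (n : ℝ) + 1 := by positivity
    have h5 : (e : ℝ) * ((n : ℝ) + 1) ^ m ≤ (m.factorial * d : ℝ) * ((N : ℝ) + (n + 1)) ^ m := by
      exact_mod_cast h1 n
    have h6 : (N : ℝ) + (n + 1) = (1 + (N : ℝ) * (1 / ((n : ℝ) + 1))) * ((n : ℝ) + 1) := by
      field_simp
      ring
    rw [h6, mul_pow, ← mul_assoc] at h5
    exact le_of_mul_le_mul_right h5 (by positivity)
  have h7 : Tendsto (fun n : ℕ => (m.factorial * d : ℝ) *
      (1 + (N : ℝ) * (1 / ((n : ℝ) + 1))) ^ m) atTop (𝓝 ((m.factorial * d : ℝ) *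
      (1 + (N : ℝ) * 0) ^ m)) :=
    ((((tendsto_one_div_add_atTop_nhds_zero_nat (𝕜 := ℝ)).const_mul (N : ℝ)).const_add 1).pow
      m).const_mul _
  have h8 := ge_of_tendsto' h7 h4
  rw [mul_zero, add_zero, one_pow, mul_one] at h8
  exact_mod_cast h8

end Pool.Agent.H74.DB
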